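import Pool.Agent.Run7.h161.KN.Glue2

set_option autoImplicit false
set_option linter.unusedSimpArgs false

/-!
# Trees of exteriors of tangles in symmetric unions of two-bridge links

## The pieces

Let `D` be the alternating diagram whose white graph is a fan: the white regions are the hub `A`
and `v₀, …, vₙ`, there is one crossing between `vᵢ` and `vᵢ₊₁` (`0 ≤ i < n`), and the numbers of
parallel crossings between `A` and `v₀, v₁, …, vₙ₋₁, vₙ` are `a₀ + 1, a₁, …, aₙ₋₁, aₙ + 1`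
(`a₀ + 2` if `n = 0`), where `a₀, …, aₙ ≥ 0` are arbitrary.  This is the standard diagram of a
two-bridge link, and every two-bridge link that is not the unknot or the unlink has such a
diagram.  Around `A` there are, in this order, the black regions `M` (which touches all `vᵢ`),
`F₀` (after the first crossing), bigons, `F₁` (which touches `A, v₀, v₁`), …, `Fₙ`, bigons,
`Fₙ₊₁` (before the last crossing), `M`.

Draw `D` to the left of an axis (a circle on the sphere of the diagram), its mirror image `D'` to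
the right, and take the connected sum of `D` and `D'` across the axis at the edge of the diagram
between `A` and `M`.  The axis now runs through `A` and through `M`.  The edges of `D` between
`v₀` and `M`, `vₙ` and `M`, `A` and `F₀`, `A` and `Fₙ₊₁` face their mirror images.  Let
`B₁, B₂, B₃, B₄` be balls around these four pairs of facing edges.  `B₁` and `B₂` cut `M` into
`M₀`, `M₁`, `M₂`, and `B₃`, `B₄` cut `A` into `A₀`, `A₁`, `A₂` (`A₀` and `M₀` touch the first
crossing, `A₂` and `M₂` the last one).  The piece `N(D)` is the double branched cover of the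
exterior of the four balls; its boundary consists of four tori.  Filling them with solid tori
gives the double branched covers of `D # D'` with four rational tangles on the axis, for
instance of the symmetric unions (Kinoshita–Terasaka, Lamm) of `D` with four twist regions.

The group of `N(D)` is generated by the regions, where `A₀ = 1`, `M₀ = 1`, with the relations
`b₂⁻¹ b₁ = w₁⁻¹ w₂` of the crossings (corners `w₁, b₁, w₂, b₂` counterclockwise, `w` white, `b`
black) of `D` and `b₁⁻¹ b₂ = w₁⁻¹ w₂` of those of `D'`.  The groups of the boundary tori have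
the bases `v₀⁻¹ v₀'`, `M₀⁻¹ M₁` (at `B₁`), `vₙ⁻¹ vₙ'`, `M₁⁻¹ M₂` (at `B₂`), `F₀⁻¹ F₀'`, `A₀⁻¹ A₁`
(at `B₃`), `Fₙ₊₁⁻¹ Fₙ₊₁'`, `A₁⁻¹ A₂` (at `B₄`).  The first element of each basis has finite
order in the homology of `N(D)`.

## The parts

A part (`Part`) is a compact manifold whose boundary is a torus, together with a basis `l`, `m`
of the group of the torus.  The following parts are considered.

* `rational s r`: a solid torus with `l = g ^ s`, `m = g ^ r` (`g` the core, `r`, `s` coprime).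
* `tangle T p q r s`: the double branched cover of an arbitrary (connected, reduced) alternating
  tangle `T` (`Tangle`).  Its group is generated by the regions of `T`, where `west = 1` and
  `north = 1`, with the relations of the crossings; the boundary torus has the basis `tw = east`,
  `tb = south`.  The basis `l = tw ^ p * tb ^ q`, `m = tw ^ r * tb ^ s` (`p s - q r = ± 1`) is
  arbitrary with `p, q ≥ 0`, that is, filling along `l` gives the double branched cover of an
  alternating link (for instance, `l = tw`, `l = tb` and `l = tw * tb` correspond to the two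
  closures of `T` and to the closure with one crossing that fits to those of `T`).
* `piece n a T₂ T₃ T₄ α β γ δ`: the piece `N(D)`, `D` given by `n` and `a`, with the parts
  `T₂, T₃, T₄` glued in at `B₂, B₃, B₄` such that their `l`, `m` become the bases above.  With
  `lam = v₀⁻¹ v₀'`, `mer = M₀⁻¹ M₁` the new basis is `l = lam ^ α * mer ^ β`,
  `m = lam ^ γ * mer ^ δ` (`α δ - β γ = ± 1`).

The gluing maps between pieces are arbitrary, and it is no restriction that the boundary torus of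
the last part is the one at `B₁`, since the four tori of the pieces play the same role (the
symmetries are the reversal of the fan and the passage to the dual diagram).  The group of a
part is given by van Kampen's theorem (`Part.per`); the presentations contain the redundant
relators `torus`, which say that the group of the boundary torus is commutative.

## The closed manifolds

`Grp n a T₁ T₂ T₃ T₄` is the group of the piece `N(D)` with the parts `T₁, T₂, T₃, T₄` glued in
at `B₁, B₂, B₃, B₄`.  So these are all closed manifolds that are glued along a tree from at least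
one piece `N(D)`, further such pieces, solid tori, and double branched covers of alternating
tangles, where at the latter a slope `l` that gives an alternating link is glued to the rational
longitude of the piece (the first element of the basis above).

## The theorem

`Ok` says that `s > 0` for all solid tori and `β ≠ 0` at all gluings of two pieces, that is, at
no gluing the rational longitudes are matched.  In this case all homomorphisms from the
fundamental group of the closed manifold to left-orderable groups are trivial, and the group is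
not left-orderable.  Otherwise the group has an infinite cyclic quotient.  So the closed
manifold is a rational homology sphere if and only if all parts are `Ok`, and then its
fundamental group is not left-orderable; if it is not a rational homology sphere then all three
conditions of the L-space conjecture hold (see the problem, positive first Betti number).

If `p, q > 0` at all alternating tangles (for instance, if there are none) then the third
condition is decided as well, so that all three conditions are equivalent for these manifolds: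
filling a part along `lam` gives a manifold with positive first Betti number, and, by induction on
the number of pieces and tangles (from a theorem of Gillespie and the gluing theorem of Hanselman,
Rasmussen and Watson), all fillings of a part along other slopes are L-spaces; hence all these
rational homology spheres are L-spaces.

## Idea of the proof

By induction, every fixed point of `l` is fixed by the whole group of the part, for all actions
on a complete linear order (`Per.Ctl`).  For solid tori this is clear, and for alternating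
tangles it follows from the maximum principle (in the starting files).

Let `b₀, …, bₙ` be the numbers of crossings between `A` and `v₀, …, vₙ`, `N₀ = M₁⁻¹ A₁`,
`Eᵢ = A₁⁻¹ vᵢ`, `Nᵢ = M₁⁻¹ Fᵢ` (`0 < i ≤ n`).  Then `Nᵢ₊₁ = Nᵢ Eᵢ ^ bᵢ`, `Eᵢ₊₁ = Eᵢ Nᵢ₊₁`, and
similarly `Nᵢ'`, `Eᵢ'` with `N₀' = N₀`, `Nₙ₊₁' = Nₙ₊₁`.  Let the group of a piece act on a complete
linear order.  By the induction hypothesis for `T₃` the points where `E₀` and `E₀'` agree are
fixed points of `A₁`, and by that for `T₂` and `T₄` the points where `Eₙ` and `Eₙ'` agree are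
fixed points of `Nₙ₊₁`.

(1) `lam = E₀⁻¹ E₀'` does not move all points up, since otherwise `Nₙ₊₁ < Nₙ₊₁'`.

(2) A common fixed point `x` of `lam` and `mer` is fixed by the group of the piece: otherwise
`x < E₀ x = E₀' x`, say, and comparing the images of `x` under the two words that express `E₀`,
`E₀'` through `Eₙ`, `Eₙ'` and `Nₙ₊₁` one finds `E₀ x ≠ E₀' x` (see `compare` and `Chain.moves`).

(3) Hence every fixed point of `lam ^ α * mer ^ β` with `β ≠ 0` is fixed by the group of the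
piece: on an interval without common fixed points `lam` has a fixed point `z` by (1), the orbit
of `z` under `mer` is unbounded in the interval by (2), it consists of fixed points of `lam`, and
so `lam ^ α * mer ^ β` has no fixed points there (`Piece2.controls`).  This is the induction step.

If the group of the closed manifold acts then a fixed point of `lam` is fixed by the group of
`T₁`, hence by `mer`, hence by everything by (2).  Together with (1) this shows that there are no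
nontrivial actions.
-/

namespace Pool.Agent.Results.MP_3d425c_gt.GluedSymmetricUnions

open Pool.Agent.Y479.LS Run7.h161.KN

/-- A nontrivial group is left-orderable if it carries a strict total order that is invariant
under left multiplication. -/
def LeftOrderable (G : Type*) [Group G] : Prop :=
  Nontrivial G ∧ ∃ lt : G → G → Prop, IsStrictTotalOrder G lt ∧
    ∀ a b c : G, lt a b ↔ lt (c * a) (c * b)

/-- A group with two elements `l`, `m`: the fundamental group of a compact manifold whose boundary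
is a torus, and a basis of the fundamental group of the boundary. -/
structure Per where
  K : Type
  [grp : Group K]
  l : K
  m : K

attribute [instance] Per.grp

/-- The relators of the group of (the double branched cover of) an alternating tangle. -/
inductive TangleRelator (T : Tangle) : FreeGroup (T.W ⊕ T.B) → Prop
  | west : TangleRelator T (FreeGroup.of (Sum.inl T.west))
  | north : TangleRelator T (FreeGroup.of (Sum.inr T.north))
  /-- the relation `b₂⁻¹ b₁ = w₁⁻¹ w₂` of a crossing -/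
  | crossing (c : T.C) : TangleRelator T
      ((FreeGroup.of (Sum.inr (T.b₂ c)))⁻¹ * FreeGroup.of (Sum.inr (T.b₁ c)) *
        ((FreeGroup.of (Sum.inl (T.w₁ c)))⁻¹ * FreeGroup.of (Sum.inl (T.w₂ c)))⁻¹)
  /-- the boundary torus (a consequence of the other relators) -/
  | torus : TangleRelator T
      (FreeGroup.of (Sum.inl T.east) * FreeGroup.of (Sum.inr T.south) *
        (FreeGroup.of (Sum.inr T.south) * FreeGroup.of (Sum.inl T.east))⁻¹)

/-- The group of an alternating tangle. -/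
abbrev TangleGroup (T : Tangle) : Type := PresentedGroup {w | TangleRelator T w}

/-- the peripheral element `west⁻¹ east` -/
def tw (T : Tangle) : TangleGroup T := PresentedGroup.of (Sum.inl T.east)

/-- the peripheral element `north⁻¹ south` -/
def tb (T : Tangle) : TangleGroup T := PresentedGroup.of (Sum.inr T.south)

/-- The generators of a piece: the white regions `A₀, A₁, A₂` and `vᵢ`, `vᵢ'`, the black regions
`M₀, M₁, M₂` and `Fᵢ`, `Fᵢ'` (`v false i` and `F false i` are regions of `D`, `v true i` and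
`F true i` their mirror images), and the elements of the groups of the parts `T₂, T₃, T₄`. -/
inductive Gen (n : ℕ) (K₂ K₃ K₄ : Type)
  | A₀ | A₁ | A₂ | M₀ | M₁ | M₂
  | v (c : Bool) (i : Fin (n + 1))
  | F (c : Bool) (i : Fin (n + 2))
  | t₂ (k : K₂) | t₃ (k : K₃) | t₄ (k : K₄)

open Gen

/-- The generator as an element of the free group. -/
abbrev ι {n : ℕ} {K₂ K₃ K₄ : Type} (x : Gen n K₂ K₃ K₄) : FreeGroup (Gen n K₂ K₃ K₄) :=
  FreeGroup.of x

/-- The peripheral element `v₀⁻¹ v₀'` (the rational longitude). -/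
def lam {n : ℕ} {K₂ K₃ K₄ : Type} : FreeGroup (Gen n K₂ K₃ K₄) :=
  (ι (v false 0))⁻¹ * ι (v true 0)

/-- The peripheral element `M₀⁻¹ M₁`. -/
def mer {n : ℕ} {K₂ K₃ K₄ : Type} : FreeGroup (Gen n K₂ K₃ K₄) := (ι M₀)⁻¹ * ι M₁

/-- The relators of a piece with the parts `P₂, P₃, P₄`. -/
inductive Relator (n : ℕ) (a : ℕ → ℕ) (P₂ P₃ P₄ : Per) :
    FreeGroup (Gen n P₂.K P₃.K P₄.K) → Prop
  /-- `A₀ = 1` -/
  | base_white : Relator n a P₂ P₃ P₄ (ι A₀)
  /-- `M₀ = 1` -/
  | base_black : Relator n a P₂ P₃ P₄ (ι M₀)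
  /-- the first crossing: `M₀⁻¹ F₀ = A₀⁻¹ v₀` -/
  | first (c : Bool) : Relator n a P₂ P₃ P₄
      ((ι M₀)⁻¹ * ι (F c 0) * ((ι A₀)⁻¹ * ι (v c 0))⁻¹)
  /-- the `aᵢ` crossings between `A₁` and `vᵢ`: `Fᵢ⁻¹ Fᵢ₊₁ = (A₁⁻¹ vᵢ) ^ aᵢ` -/
  | spokes (c : Bool) (i : Fin (n + 1)) : Relator n a P₂ P₃ P₄
      ((ι (F c i.castSucc))⁻¹ * ι (F c i.succ) * (((ι A₁)⁻¹ * ι (v c i)) ^ a i)⁻¹)
  /-- the crossing between `vᵢ` and `vᵢ₊₁`: `M₁⁻¹ Fᵢ₊₁ = vᵢ⁻¹ vᵢ₊₁` -/
  | rim (c : Bool) (i : Fin n) : Relator n a P₂ P₃ P₄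
      ((ι M₁)⁻¹ * ι (F c i.succ.castSucc) * ((ι (v c i.castSucc))⁻¹ * ι (v c i.succ))⁻¹)
  /-- the last crossing: `Fₙ₊₁⁻¹ M₂ = A₂⁻¹ vₙ` -/
  | last (c : Bool) : Relator n a P₂ P₃ P₄
      ((ι (F c (Fin.last (n + 1))))⁻¹ * ι M₂ * ((ι A₂)⁻¹ * ι (v c (Fin.last n)))⁻¹)
  /-- the multiplication of the group of the part `P₂` -/
  | mul₂ (k k' : P₂.K) : Relator n a P₂ P₃ P₄ (ι (t₂ k) * ι (t₂ k') * (ι (t₂ (k * k')))⁻¹)
  /-- the multiplication of the group of the part `P₃` -/
  | mul₃ (k k' : P₃.K) : Relator n a P₂ P₃ P₄ (ι (t₃ k) * ι (t₃ k') * (ι (t₃ (k * k')))⁻¹)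
  /-- the multiplication of the group of the part `P₄` -/
  | mul₄ (k k' : P₄.K) : Relator n a P₂ P₃ P₄ (ι (t₄ k) * ι (t₄ k') * (ι (t₄ (k * k')))⁻¹)
  /-- the gluing of `P₂`: `vₙ⁻¹ vₙ' = l` -/
  | l₂ : Relator n a P₂ P₃ P₄
      ((ι (v false (Fin.last n)))⁻¹ * ι (v true (Fin.last n)) * (ι (t₂ P₂.l))⁻¹)
  /-- the gluing of `P₂`: `M₁⁻¹ M₂ = m` -/
  | m₂ : Relator n a P₂ P₃ P₄ ((ι M₁)⁻¹ * ι M₂ * (ι (t₂ P₂.m))⁻¹)
  /-- the gluing of `P₃`: `F₀⁻¹ F₀' = l` -/
  | l₃ : Relator n a P₂ P₃ P₄ ((ι (F false 0))⁻¹ * ι (F true 0) * (ι (t₃ P₃.l))⁻¹)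
  /-- the gluing of `P₃`: `A₀⁻¹ A₁ = m` -/
  | m₃ : Relator n a P₂ P₃ P₄ ((ι A₀)⁻¹ * ι A₁ * (ι (t₃ P₃.m))⁻¹)
  /-- the gluing of `P₄`: `Fₙ₊₁⁻¹ Fₙ₊₁' = l` -/
  | l₄ : Relator n a P₂ P₃ P₄ ((ι (F false (Fin.last (n + 1))))⁻¹ *
      ι (F true (Fin.last (n + 1))) * (ι (t₄ P₄.l))⁻¹)
  /-- the gluing of `P₄`: `A₁⁻¹ A₂ = m` -/
  | m₄ : Relator n a P₂ P₃ P₄ ((ι A₁)⁻¹ * ι A₂ * (ι (t₄ P₄.m))⁻¹)
  /-- the boundary torus of the piece (a consequence of the other relators) -/
  | torus : Relator n a P₂ P₃ P₄ (lam * mer * (mer * lam)⁻¹)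

/-- The group of a piece. -/
abbrev PieceGroup (n : ℕ) (a : ℕ → ℕ) (P₂ P₃ P₄ : Per) : Type :=
  PresentedGroup {w | Relator n a P₂ P₃ P₄ w}

/-- The quotient map. -/
def pm {n : ℕ} {a : ℕ → ℕ} {P₂ P₃ P₄ : Per} :
    FreeGroup (Gen n P₂.K P₃.K P₄.K) →* PieceGroup n a P₂ P₃ P₄ :=
  PresentedGroup.mk {w | Relator n a P₂ P₃ P₄ w}

/-- The manifolds with one boundary torus that are glued together: solid tori, double branched
covers of alternating tangles, and pieces in which three parts are glued. -/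
inductive Part
  | rational (s : ℕ) (r : ℤ)
  | tangle (T : Tangle) (p q : ℕ) (r s : ℤ) (h : 0 < p + q)
  | piece (n : ℕ) (a : ℕ → ℕ) (T₂ T₃ T₄ : Part) (α β γ δ : ℤ)

/-- The fundamental group of a part and the basis `l, m` of the peripheral group that is used for
the gluing. -/
def Part.per : Part → Per
  | rational s r =>
    { K := Multiplicative ℤ, l := Multiplicative.ofAdd (s : ℤ), m := Multiplicative.ofAdd r }
  | tangle T p q r s _ =>
    { K := TangleGroup T
      l := tw T ^ p * tb T ^ q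
      m := tw T ^ r * tb T ^ s }
  | piece n a T₂ T₃ T₄ α β γ δ =>
    { K := PieceGroup n a T₂.per T₃.per T₄.per
      l := pm (lam ^ α * mer ^ β)
      m := pm (lam ^ γ * mer ^ δ) }

/-- No gluing matches the rational longitudes. -/
def Part.Ok : Part → Prop
  | rational s _ => 0 < s
  | tangle _ _ _ _ _ _ => True
  | piece _ _ T₂ T₃ T₄ _ β _ _ => T₂.Ok ∧ T₃.Ok ∧ T₄.Ok ∧ β ≠ 0

/-- The relators of a piece whose boundary torus is glued to that of `P₁`. -/
inductive ClosedRelator (n : ℕ) (a : ℕ → ℕ) (P₁ P₂ P₃ P₄ : Per) :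
    FreeGroup (Gen n P₂.K P₃.K P₄.K ⊕ P₁.K) → Prop
  | piece (w : FreeGroup (Gen n P₂.K P₃.K P₄.K)) (hw : Relator n a P₂ P₃ P₄ w) :
      ClosedRelator n a P₁ P₂ P₃ P₄ (FreeGroup.map Sum.inl w)
  /-- the multiplication of the group of the part `P₁` -/
  | mul₁ (k k' : P₁.K) : ClosedRelator n a P₁ P₂ P₃ P₄
      (FreeGroup.of (Sum.inr k) * FreeGroup.of (Sum.inr k') *
        (FreeGroup.of (Sum.inr (k * k')))⁻¹)
  /-- the gluing of `P₁`: `v₀⁻¹ v₀' = l` -/
  | l₁ : ClosedRelator n a P₁ P₂ P₃ P₄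
      (FreeGroup.map Sum.inl lam * (FreeGroup.of (Sum.inr P₁.l))⁻¹)
  /-- the gluing of `P₁`: `M₀⁻¹ M₁ = m` -/
  | m₁ : ClosedRelator n a P₁ P₂ P₃ P₄
      (FreeGroup.map Sum.inl mer * (FreeGroup.of (Sum.inr P₁.m))⁻¹)

/-- The group of a piece glued to four parts. -/
abbrev ClosedGroup (n : ℕ) (a : ℕ → ℕ) (P₁ P₂ P₃ P₄ : Per) : Type :=
  PresentedGroup {w | ClosedRelator n a P₁ P₂ P₃ P₄ w}

/-- The fundamental group of the closed manifold. -/
abbrev Grp (n : ℕ) (a : ℕ → ℕ) (T₁ T₂ T₃ T₄ : Part) : Type :=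
  ClosedGroup n a T₁.per T₂.per T₃.per T₄.per

/-- the multiplicities of all spokes -/
def mult (n : ℕ) (a : ℕ → ℕ) (i : ℕ) : ℕ :=
  a i + (if i = 0 then 1 else 0) + (if i = n then 1 else 0)

/-- A fixed point of `l` is fixed by the whole group. -/
def Per.Ctl (P : Per) : Prop :=
  ∀ (X : Type) [CompleteLinearOrder X] (φ : P.K →* Aut X) (p : X), φ P.l p = p →
    ∀ k, φ k p = p

/-- The regions of a piece in any group form two chains. -/
theorem exists_piece (n : ℕ) (a : ℕ → ℕ) (P₂ P₃ P₄ : Per) (c₂ : P₂.Ctl) (c₃ : P₃.Ctl)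
    (c₄ : P₄.Ctl) (h₄ : Commute P₄.l P₄.m) {G : Type} [Group G] (I : Gen n P₂.K P₃.K P₄.K → G)
    (hI : ∀ w, Relator n a P₂ P₃ P₄ w → FreeGroup.lift I w = 1) :
    ∃ N E N' E' : ℕ → G,
      Piece2 n (mult n a) N E N' E' (I M₁) (I A₁) ∧
      (E 0)⁻¹ * E' 0 = FreeGroup.lift I lam ∧ I M₁ = FreeGroup.lift I mer ∧
      (∀ (X : Type) [CompleteLinearOrder X] (φ : G →* Aut X) (x : X),
        φ (E' 0) x = φ (E 0) x → φ (I A₁) x = x) ∧
      (∀ (X : Type) [CompleteLinearOrder X] (φ : G →* Aut X) (x : X),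
        φ (E' n) x = φ (E n) x → φ (N (n + 1)) x = x) ∧
      (∀ (X : Type) [CompleteLinearOrder X] (φ : G →* Aut X) (x : X),
        φ (E 0) x = x → φ (E' 0) x = x → φ (I M₁) x = x → ∀ y, φ (I y) x = x) := by
  set L := FreeGroup.lift I with hL
  have eA₀ : I A₀ = 1 := by simpa [hL] using hI _ Relator.base_white
  have eM₀ : I M₀ = 1 := by simpa [hL] using hI _ Relator.base_black
  have efirst : ∀ c, (I M₀)⁻¹ * I (F c 0) * ((I A₀)⁻¹ * I (v c 0))⁻¹ = 1 := by
    intro c
    simpa only [hL, map_mul, map_inv, map_pow, map_zpow, FreeGroup.lift_apply_of] using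
      hI _ (Relator.first c)
  have espokes : ∀ c (i : Fin (n + 1)),
      (I (F c i.castSucc))⁻¹ * I (F c i.succ) * (((I A₁)⁻¹ * I (v c i)) ^ a i)⁻¹ = 1 := by
    intro c i
    simpa only [hL, map_mul, map_inv, map_pow, map_zpow, FreeGroup.lift_apply_of] using
      hI _ (Relator.spokes c i)
  have erim : ∀ c (i : Fin n), (I M₁)⁻¹ * I (F c i.succ.castSucc) *
      ((I (v c i.castSucc))⁻¹ * I (v c i.succ))⁻¹ = 1 := by
    intro c i
    simpa only [hL, map_mul, map_inv, map_pow, map_zpow, FreeGroup.lift_apply_of] using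
      hI _ (Relator.rim c i)
  have elast : ∀ c, (I (F c (Fin.last (n + 1))))⁻¹ * I M₂ *
      ((I A₂)⁻¹ * I (v c (Fin.last n)))⁻¹ = 1 := by
    intro c
    simpa only [hL, map_mul, map_inv, map_pow, map_zpow, FreeGroup.lift_apply_of] using
      hI _ (Relator.last c)
  have emul₂ : ∀ k k' : P₂.K, I (t₂ (k * k')) = I (t₂ k) * I (t₂ k') := by
    intro k k'
    have h := hI _ (Relator.mul₂ k k')
    simp only [hL, map_mul, map_inv, FreeGroup.lift_apply_of] at h
    exact (mul_inv_eq_one.mp h).symm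
  have emul₃ : ∀ k k' : P₃.K, I (t₃ (k * k')) = I (t₃ k) * I (t₃ k') := by
    intro k k'
    have h := hI _ (Relator.mul₃ k k')
    simp only [hL, map_mul, map_inv, FreeGroup.lift_apply_of] at h
    exact (mul_inv_eq_one.mp h).symm
  have emul₄ : ∀ k k' : P₄.K, I (t₄ (k * k')) = I (t₄ k) * I (t₄ k') := by
    intro k k'
    have h := hI _ (Relator.mul₄ k k')
    simp only [hL, map_mul, map_inv, FreeGroup.lift_apply_of] at h
    exact (mul_inv_eq_one.mp h).symm
  have el₂ : (I (v false (Fin.last n)))⁻¹ * I (v true (Fin.last n)) = I (t₂ P₂.l) := by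
    have h := hI _ Relator.l₂
    simp only [hL, map_mul, map_inv, FreeGroup.lift_apply_of] at h
    exact mul_inv_eq_one.mp h
  have em₂ : (I M₁)⁻¹ * I M₂ = I (t₂ P₂.m) := by
    have h := hI _ Relator.m₂
    simp only [hL, map_mul, map_inv, FreeGroup.lift_apply_of] at h
    exact mul_inv_eq_one.mp h
  have el₃ : (I (F false 0))⁻¹ * I (F true 0) = I (t₃ P₃.l) := by
    have h := hI _ Relator.l₃
    simp only [hL, map_mul, map_inv, FreeGroup.lift_apply_of] at h
    exact mul_inv_eq_one.mp h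
  have em₃ : (I A₀)⁻¹ * I A₁ = I (t₃ P₃.m) := by
    have h := hI _ Relator.m₃
    simp only [hL, map_mul, map_inv, FreeGroup.lift_apply_of] at h
    exact mul_inv_eq_one.mp h
  have el₄ : (I (F false (Fin.last (n + 1))))⁻¹ * I (F true (Fin.last (n + 1))) =
      I (t₄ P₄.l) := by
    have h := hI _ Relator.l₄
    simp only [hL, map_mul, map_inv, FreeGroup.lift_apply_of] at h
    exact mul_inv_eq_one.mp h
  have em₄ : (I A₁)⁻¹ * I A₂ = I (t₄ P₄.m) := by
    have h := hI _ Relator.m₄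
    simp only [hL, map_mul, map_inv, FreeGroup.lift_apply_of] at h
    exact mul_inv_eq_one.mp h
  have etorus : ((I A₁)⁻¹ * I A₂) *
      ((I (F false (Fin.last (n + 1))))⁻¹ * I (F true (Fin.last (n + 1)))) =
        ((I (F false (Fin.last (n + 1))))⁻¹ * I (F true (Fin.last (n + 1)))) *
          ((I A₁)⁻¹ * I A₂) := by
    rw [el₄, em₄, ← emul₄, ← emul₄, h₄.eq]
  have etorus₁ : L lam * L mer * (L mer * L lam)⁻¹ = 1 := by
    simpa only [hL, map_mul, map_inv] using hI _ Relator.torus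
  simp only [eA₀, eM₀, inv_one, one_mul, mul_inv_eq_one] at efirst espokes erim elast
  rw [mul_inv_eq_one] at etorus₁
  set b := mult n a with hb
  set N₀ : G := (I M₁)⁻¹ * I A₁ with hN₀
  set C : Bool → ℕ → G × G := fun c => chain b N₀ ((I A₁)⁻¹ * I (v c 0)) with hC
  have C_succ : ∀ c i, C c (i + 1) = ((C c i).1 * (C c i).2 ^ b i,
      (C c i).2 * ((C c i).1 * (C c i).2 ^ b i)) := fun c i => rfl
  have C0 : ∀ c, (C c 0).2 = (I A₁)⁻¹ * I (v c 0) := fun c => rfl
  have key : ∀ c i (hi : i < n + 1), (C c i).2 = (I A₁)⁻¹ * I (v c ⟨i, hi⟩) ∧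
      (C c i).1 * (C c i).2 ^ (a i + if i = 0 then 1 else 0) =
        (I M₁)⁻¹ * I (F c ⟨i + 1, by omega⟩) := by
    intro c i
    induction i with
    | zero =>
      intro hi
      refine ⟨rfl, ?_⟩
      have h3 : (C c 0).1 = (I M₁)⁻¹ * I A₁ := rfl
      rw [C0, h3, if_pos rfl, pow_succ']
      have h4 : I (F c ⟨0 + 1, by omega⟩) = I (F c (Fin.castSucc 0)) *
          ((I A₁)⁻¹ * I (v c 0)) ^ a 0 := by
        have h5 : (I (F c (Fin.castSucc 0)))⁻¹ * I (F c (Fin.succ 0)) =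
          ((I A₁)⁻¹ * I (v c 0)) ^ a 0 := espokes c 0
        rw [← h5, mul_inv_cancel_left]; rfl
      have h6 : I (F c (Fin.castSucc 0)) = I (v c 0) := efirst c
      rw [h4, h6]
      show (I M₁)⁻¹ * I A₁ * ((I A₁)⁻¹ * I (v c 0) * ((I A₁)⁻¹ * I (v c 0)) ^ a 0) =
        (I M₁)⁻¹ * (I (v c 0) * ((I A₁)⁻¹ * I (v c 0)) ^ a 0)
      generalize ((I A₁)⁻¹ * I (v c 0)) ^ a 0 = w
      group
    | succ i ih =>
      intro hi
      obtain ⟨h1, h2⟩ := ih (by omega)
      have hbi : b i = a i + if i = 0 then 1 else 0 := by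
        rw [hb, mult, if_neg (by omega : ¬ i = n), add_zero]
      have h3 : (C c (i + 1)).1 = (I M₁)⁻¹ * I (F c ⟨i + 1, by omega⟩) := by
        rw [C_succ, hbi]; exact h2
      have h4 : (C c (i + 1)).2 = (I A₁)⁻¹ * I (v c ⟨i + 1, hi⟩) := by
        have h5 : (C c (i + 1)).2 = (C c i).2 * (C c (i + 1)).1 := rfl
        rw [h5, h3, h1]
        have h6 : (I M₁)⁻¹ * I (F c ⟨i + 1, by omega⟩) =
          (I (v c ⟨i, by omega⟩))⁻¹ * I (v c ⟨i + 1, hi⟩) := erim c ⟨i, by omega⟩
        rw [h6]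
        group
      refine ⟨h4, ?_⟩
      rw [if_neg (Nat.succ_ne_zero i), add_zero, h3, h4, mul_assoc]
      have h7 : (I (F c ⟨i + 1, by omega⟩))⁻¹ * I (F c ⟨i + 1 + 1, by omega⟩) =
        ((I A₁)⁻¹ * I (v c ⟨i + 1, hi⟩)) ^ a (i + 1) := espokes c ⟨i + 1, hi⟩
      rw [← h7, mul_inv_cancel_left]
  have hE : ∀ c, (C c n).2 = (I A₁)⁻¹ * I (v c (Fin.last n)) :=
    fun c => (key c n (by omega)).1
  have hN : ∀ c, (C c (n + 1)).1 =
      (I M₁)⁻¹ * I (F c (Fin.last (n + 1))) * (C c n).2 := by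
    intro c
    have h1 := (key c n (by omega)).2
    have hbn : b n = (a n + if n = 0 then 1 else 0) + 1 := by
      rw [hb, mult, if_pos rfl]
    have h2 : (C c (n + 1)).1 = (C c n).1 * (C c n).2 ^ b n := rfl
    rw [h2, hbn, pow_succ, ← mul_assoc, h1]
    rfl
  set q := I (F false (Fin.last (n + 1))) with hq
  set q' := I (F true (Fin.last (n + 1))) with hq'
  set κ := (I A₁)⁻¹ * I A₂ with hκ
  have hM₂ : ∀ c, I M₂ = I (F c (Fin.last (n + 1))) * κ⁻¹ * (C c n).2 := by
    intro c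
    have h1 := elast c
    rw [hE, hκ, mul_inv_rev, inv_inv, mul_assoc, mul_assoc, mul_inv_cancel_left, ← h1,
      mul_inv_cancel_left]
  have hy : (C false n).2 = q⁻¹ * q' * (C true n).2 := by
    have h1 := (hM₂ false).symm.trans (hM₂ true)
    have h2 : κ⁻¹ * (C false n).2 = q⁻¹ * q' * κ⁻¹ * (C true n).2 := by
      rw [← hq, ← hq', mul_assoc] at h1
      rw [← mul_right_inj q, h1]
      group
    have h3 : q⁻¹ * q' * κ⁻¹ = κ⁻¹ * (q⁻¹ * q') := by
      have h4 : κ * (q⁻¹ * q') = q⁻¹ * q' * κ := etorus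
      rw [eq_inv_mul_iff_mul_eq, ← mul_assoc, h4, mul_inv_cancel_right]
    rw [h3, mul_assoc, mul_right_inj] at h2
    exact h2
  have hR : Ends2 n b (fun i => (C false i).1) (fun i => (C false i).2)
      (fun i => (C true i).1) (fun i => (C true i).2) := by
    refine ⟨chain_isChain _ _ _, chain_isChain _ _ _, rfl, ?_⟩
    show (C true (n + 1)).1 = (C false (n + 1)).1
    rw [hN, hN, hy, ← hq, ← hq']
    group
  have hlam : ((C false 0).2)⁻¹ * (C true 0).2 = L lam := by
    rw [C0, C0]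
    simp only [hL, lam, map_mul, map_inv, FreeGroup.lift_apply_of]
    group
  have hmer : I M₁ = L mer := by
    simp only [hL, mer, map_mul, map_inv, FreeGroup.lift_apply_of, eM₀, inv_one, one_mul]
  have slot₂ : ∀ (X : Type) [CompleteLinearOrder X] (φ : G →* Aut X) (p : X),
      φ (I (v true (Fin.last n))) p = φ (I (v false (Fin.last n))) p →
        φ (I M₂) p = φ (I M₁) p ∧ ∀ z, φ (I (t₂ z)) p = p := by
    intro X _ φ p hp
    have h1 := c₂ X (φ.comp (MonoidHom.mk' (fun k => I (t₂ k)) emul₂)) p (by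
      show φ (I (t₂ P₂.l)) p = p
      rw [← el₂, map_mul, Aut.mul_apply, hp, ← Aut.mul_apply, ← map_mul, inv_mul_cancel, map_one,
        Aut.one_apply])
    have h2 : φ (I (t₂ P₂.m)) p = p := h1 P₂.m
    rw [← em₂, map_mul, Aut.mul_apply, map_inv] at h2
    refine ⟨?_, fun z => h1 z⟩
    rw [← Aut.inj (φ (I M₁))⁻¹, Aut.inv_self, h2]
  have slot₃ : ∀ (X : Type) [CompleteLinearOrder X] (φ : G →* Aut X) (p : X),
      φ (I (F true 0)) p = φ (I (F false 0)) p → φ (I A₁) p = φ (I A₀) p ∧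
        ∀ z, φ (I (t₃ z)) p = p := by
    intro X _ φ p hp
    have h1 := c₃ X (φ.comp (MonoidHom.mk' (fun k => I (t₃ k)) emul₃)) p (by
      show φ (I (t₃ P₃.l)) p = p
      rw [← el₃, map_mul, Aut.mul_apply, hp, ← Aut.mul_apply, ← map_mul, inv_mul_cancel, map_one,
        Aut.one_apply])
    have h2 : φ (I (t₃ P₃.m)) p = p := h1 P₃.m
    rw [← em₃, map_mul, Aut.mul_apply, map_inv] at h2
    refine ⟨?_, fun z => h1 z⟩
    rw [← Aut.inj (φ (I A₀))⁻¹, Aut.inv_self, h2]
  have slot₄ : ∀ (X : Type) [CompleteLinearOrder X] (φ : G →* Aut X) (p : X),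
      φ q' p = φ q p → φ (I A₂) p = φ (I A₁) p ∧ ∀ z, φ (I (t₄ z)) p = p := by
    intro X _ φ p hp
    have h1 := c₄ X (φ.comp (MonoidHom.mk' (fun k => I (t₄ k)) emul₄)) p (by
      show φ (I (t₄ P₄.l)) p = p
      rw [← el₄, map_mul, Aut.mul_apply, hp, ← Aut.mul_apply, ← map_mul, inv_mul_cancel, map_one,
        Aut.one_apply])
    have h2 : φ (I (t₄ P₄.m)) p = p := h1 P₄.m
    rw [← em₄, map_mul, Aut.mul_apply, map_inv] at h2
    refine ⟨?_, fun z => h1 z⟩
    rw [← Aut.inj (φ (I A₁))⁻¹, Aut.inv_self, h2]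
  have agree : ∀ (X : Type) [CompleteLinearOrder X] (φ : G →* Aut X)
      (g g' : G) (p : X), φ ((I A₁)⁻¹ * g') p = φ ((I A₁)⁻¹ * g) p →
      φ g' p = φ g p := by
    intro X _ φ g g' p hp
    rw [map_mul, map_mul, Aut.mul_apply, Aut.mul_apply, Aut.inj] at hp
    exact hp
  have start : ∀ (X : Type) [CompleteLinearOrder X] (φ : G →* Aut X) (p : X),
      φ (C true 0).2 p = φ (C false 0).2 p → φ (I A₁) p = p := by
    intro X _ φ p hp
    rw [C0, C0] at hp
    have h1 := agree X φ _ _ p hp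
    have h3 : φ (I (F true 0)) p = φ (I (F false 0)) p := by rw [efirst, efirst]; exact h1
    have h4 := (slot₃ X φ p h3).1
    rw [eA₀, map_one, Aut.one_apply] at h4
    exact h4
  refine ⟨fun i => (C false i).1, fun i => (C false i).2, fun i => (C true i).1,
    fun i => (C true i).2, ⟨hR, ?_, rfl⟩, hlam, hmer, start, ?_, ?_⟩
  · show ((C false 0).2)⁻¹ * (C true 0).2 * I M₁ = I M₁ * (((C false 0).2)⁻¹ * (C true 0).2)
    rw [hlam, hmer]
    exact etorus₁
  · intro X _ φ p hp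
    have hp' : φ (C true n).2 p = φ (C false n).2 p := hp
    have h1 : φ (I (v true (Fin.last n))) p = φ (I (v false (Fin.last n))) p := by
      rw [hE, hE] at hp'
      exact agree X φ _ _ p hp'
    have h2 := (slot₂ X φ p h1).1
    set z := φ (C false n).2 p with hz
    have h3 : φ q' z = φ q z := by
      have h4 : φ (C false n).2 p = φ (q⁻¹ * q') (φ (C true n).2 p) := by
        rw [← Aut.mul_apply, ← map_mul, ← hy]
      rw [hp', ← hz] at h4
      have h5 : φ q (φ (q⁻¹ * q') z) = φ q' z := by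
        rw [← Aut.mul_apply, ← map_mul, mul_inv_cancel_left]
      rw [← h5, ← h4]
    have h4 := (slot₄ X φ z h3).1
    have h5 : φ κ⁻¹ z = z := by
      have h6 : φ κ z = z := by
        rw [hκ, map_mul, Aut.mul_apply, h4, ← Aut.mul_apply, ← map_mul, inv_mul_cancel, map_one,
          Aut.one_apply]
      rw [map_inv]; exact inv_fix h6
    show φ (C false (n + 1)).1 p = p
    rw [hN, ← hq]
    have h6 : φ ((I M₁)⁻¹ * I M₂) p = p := by
      rw [map_mul, Aut.mul_apply, h2, ← Aut.mul_apply, ← map_mul, inv_mul_cancel, map_one,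
        Aut.one_apply]
    have h7 : φ ((I M₁)⁻¹ * q * (C false n).2) p = φ ((I M₁)⁻¹ * q) z := by
      rw [map_mul, Aut.mul_apply, ← hz]
    have h8 : φ ((I M₁)⁻¹ * I M₂) p = φ ((I M₁)⁻¹ * q) z := by
      have h9 : (I M₁)⁻¹ * I M₂ = (I M₁)⁻¹ * q * κ⁻¹ * (C false n).2 := by
        rw [hM₂ false, ← hq]; group
      rw [h9, map_mul, Aut.mul_apply, ← hz, map_mul, Aut.mul_apply, h5]
    rw [h7, ← h8, h6]
  · intro X _ φ p hp hp' k1
    have e1 : φ (C false 0).2 p = p := hp
    have e2 : φ (C true 0).2 p = p := hp'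
    have k2 := start X φ p (e2.trans e1.symm)
    have kN : φ N₀ p = p := by
      rw [hN₀, map_mul, map_inv, Aut.mul_apply, k2, inv_fix k1]
    set K : Subgroup G :=
      { carrier := {g | φ g p = p}
        one_mem' := by show φ 1 p = p; rw [map_one, Aut.one_apply]
        mul_mem' := by
          intro g g' h5 h6
          show φ (g * g') p = p
          rw [map_mul, Aut.mul_apply, (show φ g' p = p from h6), (show φ g p = p from h5)]
        inv_mem' := by
          intro g h5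
          show φ g⁻¹ p = p
          rw [map_inv]; exact inv_fix h5 } with hK
    have kM₁ : I M₁ ∈ K := k1
    have kA₁ : I A₁ ∈ K := k2
    have kc : ∀ c, (C c 0).2 ∈ K := by rintro (_ | _) <;> assumption
    have kC : ∀ c i, (C c i).1 ∈ K ∧ (C c i).2 ∈ K := fun c i =>
      chain_mem b (show N₀ ∈ K from kN) (kc c) i
    have kv : ∀ c (i : Fin (n + 1)), I (v c i) ∈ K := by
      intro c i
      have h1 := (key c i i.2).1
      have h2 : I (v c i) = I A₁ * (C c i).2 := by rw [h1, mul_inv_cancel_left]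
      rw [h2]; exact mul_mem kA₁ (kC c i).2
    have kF : ∀ c (i : Fin (n + 2)), I (F c i) ∈ K := by
      intro c i
      refine Fin.cases ?_ (fun i => ?_) i
      · rw [efirst]; exact kv c 0
      · have h1 := (key c i i.2).2
        have h2 : I (F c i.succ) = I M₁ * ((C c i).1 * (C c i).2 ^
          (a i + if (i : ℕ) = 0 then 1 else 0)) := by
          rw [h1, mul_inv_cancel_left]; rfl
        rw [h2]
        exact mul_mem kM₁ (mul_mem (kC c i).1 (pow_mem (kC c i).2 _))
    have s₂ := slot₂ X φ p ((kv true (Fin.last n) : φ _ p = p).trans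
      (kv false (Fin.last n) : φ _ p = p).symm)
    have s₃ := slot₃ X φ p ((kF true 0 : φ _ p = p).trans (kF false 0 : φ _ p = p).symm)
    have s₄ := slot₄ X φ p ((kF true (Fin.last (n + 1)) : φ _ p = p).trans
      (kF false (Fin.last (n + 1)) : φ _ p = p).symm)
    intro x
    cases x with
    | A₀ => rw [eA₀, map_one, Aut.one_apply]
    | A₁ => exact kA₁
    | A₂ => exact s₄.1.trans k2
    | M₀ => rw [eM₀, map_one, Aut.one_apply]
    | M₁ => exact kM₁
    | M₂ => exact s₂.1.trans k1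
    | v c i => exact kv c i
    | F c i => exact kF c i
    | t₂ g => exact s₂.2 g
    | t₃ g => exact s₃.2 g
    | t₄ g => exact s₄.2 g


theorem presented_fix {A : Type} {rels : Set (FreeGroup A)} {X : Type} [LinearOrder X]
    (φ : PresentedGroup rels →* Aut X) {p : X} (h : ∀ y, φ (PresentedGroup.of y) p = p)
    (g : PresentedGroup rels) : φ g p = p := by
  have hg : g ∈ Subgroup.closure (Set.range (PresentedGroup.of (rels := rels))) := by
    rw [PresentedGroup.closure_range_of]; trivial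
  induction hg using Subgroup.closure_induction with
  | mem g hg =>
    obtain ⟨y, rfl⟩ := hg
    exact h y
  | one => rw [map_one, Aut.one_apply]
  | mul g g' _ _ h5 h6 => rw [map_mul, Aut.mul_apply, h6, h5]
  | inv g _ h5 => rw [map_inv]; exact inv_fix h5

theorem rational_ctl {s : ℕ} (hs : 0 < s) (X : Type) [CompleteLinearOrder X]
    (φ : Multiplicative ℤ →* Aut X) (p : X) (hp : φ (Multiplicative.ofAdd (s : ℤ)) p = p)
    (k : Multiplicative ℤ) : φ k p = p := by
  have h1 : ∀ z : ℤ, φ (Multiplicative.ofAdd z) = φ (Multiplicative.ofAdd (1 : ℤ)) ^ z := by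
    intro z
    rw [← map_zpow, ← ofAdd_zsmul, smul_eq_mul, mul_one]
  rw [h1, zpow_natCast] at hp
  have h2 : φ k = φ (Multiplicative.ofAdd (1 : ℤ)) ^ (Multiplicative.toAdd k) := by
    rw [← h1]; rfl
  rw [h2]
  exact zpow_fix (root_fix hs hp) _

theorem prod_up {X : Type} [LinearOrder X] {f g : Aut X} {x : X} (hf : x < f x) (hg : x < g x)
    {p q : ℕ} (h : 0 < p + q) : x < (f ^ p * g ^ q) x := by
  rw [Aut.mul_apply]
  rcases Nat.eq_zero_or_pos q with rfl | hq
  · rw [pow_zero, Aut.one_apply]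
    exact lt_pow hf p (by omega)
  · have h1 : x < (g ^ q) x := lt_pow hg q hq
    have h2 : (f ^ p) x < (f ^ p) ((g ^ q) x) := (Aut.lt_iff _).mpr h1
    rcases Nat.eq_zero_or_pos p with rfl | hp
    · rw [pow_zero, Aut.one_apply]
      exact h1
    · exact (lt_pow hf p hp).trans h2

theorem prod_down {X : Type} [LinearOrder X] {f g : Aut X} {x : X} (hf : f x < x) (hg : g x < x)
    {p q : ℕ} (h : 0 < p + q) : (f ^ p * g ^ q) x < x := by
  rw [Aut.mul_apply]
  rcases Nat.eq_zero_or_pos q with rfl | hq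
  · rw [pow_zero, Aut.one_apply]
    exact pow_lt hf p (by omega)
  · have h1 : (g ^ q) x < x := pow_lt hg q hq
    have h2 : (f ^ p) ((g ^ q) x) < (f ^ p) x := (Aut.lt_iff _).mpr h1
    rcases Nat.eq_zero_or_pos p with rfl | hp
    · rw [pow_zero, Aut.one_apply]
      exact h1
    · exact h2.trans (pow_lt hf p hp)

theorem tangle_ctl (T : Tangle) {p q : ℕ} (hpq : 0 < p + q) (X : Type) [CompleteLinearOrder X]
    (φ : TangleGroup T →* Aut X) (x : X) (hx : φ (tw T ^ p * tb T ^ q) x = x)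
    (k : TangleGroup T) : φ k x = x := by
  have hrel : ∀ {w}, TangleRelator T w → PresentedGroup.mk {w | TangleRelator T w} w = 1 :=
    fun hw => PresentedGroup.one_of_mem hw
  have hw : (PresentedGroup.of (Sum.inl T.west) : TangleGroup T) = 1 :=
    hrel TangleRelator.west
  have hn : (PresentedGroup.of (Sum.inr T.north) : TangleGroup T) = 1 :=
    hrel TangleRelator.north
  have hrep : T.Rep (fun w => φ (PresentedGroup.of (Sum.inl w)))
      (fun b => φ (PresentedGroup.of (Sum.inr b))) := by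
    intro c
    have h := hrel (TangleRelator.crossing c)
    rw [map_mul, map_inv, mul_inv_eq_one, map_mul, map_mul, map_inv, map_inv] at h
    have h' := congrArg φ h
    rw [map_mul, map_mul, map_inv, map_inv] at h'
    exact h'
  have hW : φ (PresentedGroup.of (Sum.inl T.west)) x = x := by rw [hw, map_one, Aut.one_apply]
  have hN : φ (PresentedGroup.of (Sum.inr T.north)) x = x := by rw [hn, map_one, Aut.one_apply]
  have := T.finW
  have := T.finB
  have all : φ (PresentedGroup.of (Sum.inl T.west)) x = φ (PresentedGroup.of (Sum.inl T.east)) x →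
      φ k x = x := by
    intro h1
    obtain ⟨h2, h3⟩ := Slot.tangle_fix_white hrep h1
    refine presented_fix φ ?_ k
    rintro (z | z)
    · exact (h2 z).trans hW
    · exact (h3 z).trans hN
  have all' : φ (PresentedGroup.of (Sum.inr T.north)) x =
      φ (PresentedGroup.of (Sum.inr T.south)) x → φ k x = x := by
    intro h1
    obtain ⟨h2, h3⟩ := Slot.tangle_fix_black hrep h1
    refine presented_fix φ ?_ k
    rintro (z | z)
    · exact (h2 z).trans hW
    · exact (h3 z).trans hN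
  rw [map_mul, map_pow, map_pow] at hx
  rcases lt_trichotomy (φ (tw T) x) x with h1 | h1 | h1
  · have h2 : φ (PresentedGroup.of (Sum.inr T.south)) x ≤
        φ (PresentedGroup.of (Sum.inr T.north)) x := by
      refine T.white.current_aux hrep.white x ?_
      show φ (tw T) x ≤ φ (PresentedGroup.of (Sum.inl T.west)) x
      rw [hW]; exact h1.le
    rcases h2.lt_or_eq with h3 | h3
    · rw [hN] at h3
      exact absurd hx (prod_down h1 h3 hpq).ne
    · exact all' h3.symm
  · exact all (hW.trans h1.symm)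
  · have h2 : φ (PresentedGroup.of (Sum.inr T.north)) x ≤
        φ (PresentedGroup.of (Sum.inr T.south)) x := by
      refine T.white.current hrep.white x ?_
      show φ (PresentedGroup.of (Sum.inl T.west)) x ≤ φ (tw T) x
      rw [hW]; exact h1.le
    rcases h2.lt_or_eq with h3 | h3
    · rw [hN] at h3
      exact absurd hx (prod_up h1 h3 hpq).ne'
    · exact all' h3

theorem lift_of_eq {A : Type} {rels : Set (FreeGroup A)} (w : FreeGroup A) :
    FreeGroup.lift (fun y => (PresentedGroup.of y : PresentedGroup rels)) w =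
      PresentedGroup.mk rels w := by
  have h1 : FreeGroup.lift (fun y => (PresentedGroup.of y : PresentedGroup rels)) =
      PresentedGroup.mk rels := by
    ext y; simp [PresentedGroup.of]
  rw [h1]

theorem mult_pos (n : ℕ) (a : ℕ → ℕ) : 0 < mult n a 0 := by
  rw [mult, if_pos rfl]; omega

theorem piece_ctl (n : ℕ) (a : ℕ → ℕ) (P₂ P₃ P₄ : Per) (c₂ : P₂.Ctl) (c₃ : P₃.Ctl)
    (c₄ : P₄.Ctl) (h₄ : Commute P₄.l P₄.m) {α β : ℤ} (hβ : β ≠ 0) (X : Type)
    [CompleteLinearOrder X] (φ : PieceGroup n a P₂ P₃ P₄ →* Aut X) (p : X)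
    (hp : φ (pm (lam ^ α * mer ^ β)) p = p) (k : PieceGroup n a P₂ P₃ P₄) : φ k p = p := by
  obtain ⟨N, E, N', E', hP, p1, p2, p3, p4, p5⟩ := exists_piece n a P₂ P₃ P₄ c₂ c₃ c₄ h₄
    (G := PieceGroup n a P₂ P₃ P₄) (fun y => PresentedGroup.of y)
    (fun w hw => by rw [lift_of_eq]; exact PresentedGroup.one_of_mem hw)
  rw [lift_of_eq] at p1 p2
  obtain ⟨h1, h2, h3, _⟩ := (hP.map φ).controls (mult_pos n a) (p3 X φ) (p4 X φ) (p := α) hβ
    (x := p) (by
      rw [← map_inv, ← map_mul, p1, p2]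
      have e : φ (PresentedGroup.mk {w | Relator n a P₂ P₃ P₄ w} lam) ^ α *
          φ (PresentedGroup.mk {w | Relator n a P₂ P₃ P₄ w} mer) ^ β =
          φ (pm (lam ^ α * mer ^ β)) := by
        simp only [pm, map_mul, map_zpow]
      rw [e]
      exact hp)
  exact presented_fix φ (p5 X φ p h1 h2 h3) k

theorem per_comm (S : Part) : Commute S.per.l S.per.m := by
  cases S with
  | rational s r => exact mul_comm (Multiplicative.ofAdd (s : ℤ)) (Multiplicative.ofAdd r)
  | tangle T p q r s hpq =>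
    have h1 : Commute (tw T) (tb T) := by
      have h := PresentedGroup.one_of_mem (rels := {w | TangleRelator T w}) TangleRelator.torus
      rw [map_mul, map_inv, mul_inv_eq_one, map_mul, map_mul] at h
      exact h
    show Commute (tw T ^ p * tb T ^ q) (tw T ^ r * tb T ^ s)
    refine Commute.mul_left (Commute.mul_right ?_ ?_) (Commute.mul_right ?_ ?_)
    · exact ((Commute.refl _).pow_left _).zpow_right _
    · exact (h1.pow_left _).zpow_right _
    · exact (h1.symm.pow_left _).zpow_right _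
    · exact ((Commute.refl _).pow_left _).zpow_right _
  | piece n a T₂ T₃ T₄ α β γ δ =>
    have h1 : Commute (pm (n := n) (a := a) (P₂ := T₂.per) (P₃ := T₃.per) (P₄ := T₄.per) lam)
        (pm mer) := by
      have h := PresentedGroup.one_of_mem
        (rels := {w | Relator n a T₂.per T₃.per T₄.per w}) Relator.torus
      rw [map_mul, map_inv, mul_inv_eq_one, map_mul, map_mul] at h
      exact h
    show Commute (pm (n := n) (a := a) (P₂ := T₂.per) (P₃ := T₃.per) (P₄ := T₄.per)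
      (lam ^ α * mer ^ β)) (pm (lam ^ γ * mer ^ δ))
    rw [map_mul, map_mul, map_zpow, map_zpow, map_zpow, map_zpow]
    refine Commute.mul_left (Commute.mul_right ?_ ?_) (Commute.mul_right ?_ ?_)
    · exact ((Commute.refl _).zpow_left _).zpow_right _
    · exact (h1.zpow_left _).zpow_right _
    · exact (h1.symm.zpow_left _).zpow_right _
    · exact ((Commute.refl _).zpow_left _).zpow_right _

theorem part_ctl (S : Part) (hS : S.Ok) : S.per.Ctl := by
  induction S with
  | rational s r => exact fun X _ φ p hp k => rational_ctl hS X φ p hp k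
  | tangle T p q r s h => exact fun X _ φ x hx g => tangle_ctl T h X φ x hx g
  | piece n a T₂ T₃ T₄ α β γ δ ih₂ ih₃ ih₄ =>
    exact fun X _ φ p hp k => piece_ctl n a T₂.per T₃.per T₄.per (ih₂ hS.1) (ih₃ hS.2.1)
      (ih₄ hS.2.2.1) (per_comm T₄) hS.2.2.2 X φ p hp k

theorem closed_triv (n : ℕ) (a : ℕ → ℕ) (P₁ P₂ P₃ P₄ : Per) (c₁ : P₁.Ctl) (c₂ : P₂.Ctl)
    (c₃ : P₃.Ctl) (c₄ : P₄.Ctl) (h₄ : Commute P₄.l P₄.m) (H : Type) [Group H]
    (hH : LeftOrderable H)
    (f : ClosedGroup n a P₁ P₂ P₃ P₄ →* H) (x : ClosedGroup n a P₁ P₂ P₃ P₄) : f x = 1 := by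
  set π := PresentedGroup.mk {w | ClosedRelator n a P₁ P₂ P₃ P₄ w} with hπ
  have hrel : ∀ {w}, ClosedRelator n a P₁ P₂ P₃ P₄ w → π w = 1 := fun hw =>
    PresentedGroup.one_of_mem hw
  set I : Gen n P₂.K P₃.K P₄.K → ClosedGroup n a P₁ P₂ P₃ P₄ :=
    fun y => π (FreeGroup.of (Sum.inl y)) with hI
  have lft : ∀ w, FreeGroup.lift I w = π (FreeGroup.map Sum.inl w) := by
    intro w
    have h1 : FreeGroup.lift I = π.comp (FreeGroup.map Sum.inl) := by
      ext y; simp [hI]
    rw [h1]; rfl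
  obtain ⟨N, E, N', E', hP, p1, p2, p3, p4, p5⟩ := exists_piece n a P₂ P₃ P₄ c₂ c₃ c₄ h₄ I
    (fun w hw => by rw [lft]; exact hrel (ClosedRelator.piece w hw))
  have emul : ∀ k k' : P₁.K, π (FreeGroup.of (Sum.inr (k * k'))) =
      π (FreeGroup.of (Sum.inr k)) * π (FreeGroup.of (Sum.inr k')) := by
    intro k k'
    have h := hrel (ClosedRelator.mul₁ (n := n) (a := a) (P₂ := P₂) (P₃ := P₃) (P₄ := P₄) k k')
    rw [map_mul, map_inv, mul_inv_eq_one, map_mul] at h
    exact h.symm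
  have el : (E 0)⁻¹ * E' 0 = π (FreeGroup.of (Sum.inr P₁.l)) := by
    have h := hrel (ClosedRelator.l₁ (n := n) (a := a) (P₁ := P₁) (P₂ := P₂) (P₃ := P₃)
      (P₄ := P₄))
    rw [map_mul, map_inv, mul_inv_eq_one, ← lft, ← p1] at h
    exact h
  have em : I M₁ = π (FreeGroup.of (Sum.inr P₁.m)) := by
    have h := hrel (ClosedRelator.m₁ (n := n) (a := a) (P₁ := P₁) (P₂ := P₂) (P₃ := P₃)
      (P₄ := P₄))
    rw [map_mul, map_inv, mul_inv_eq_one, ← lft, ← p2] at h
    exact h
  refine hom_trivial ((E 0)⁻¹ * E' 0) ?_ ?_ H hH f x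
  · intro X _ φ p hp c
    set ψ : ClosedGroup n a P₁ P₂ P₃ P₄ →* Aut (LowerSet X) := (up X).comp φ with hψ
    set p' : LowerSet X := LowerSet.Iic p with hp'
    have hup : ψ ((E 0)⁻¹ * E' 0) p' = p' := by
      rw [hψ, MonoidHom.comp_apply, hp', up_Iic, hp]
    have h1 := c₁ (LowerSet X)
      (ψ.comp (MonoidHom.mk' (fun k => π (FreeGroup.of (Sum.inr k))) emul)) p' (by
        show ψ (π (FreeGroup.of (Sum.inr P₁.l))) p' = p'
        rw [← el]; exact hup)
    have h2 : ψ (I M₁) p' = p' := by rw [em]; exact h1 P₁.m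
    have h3 : ((ψ (E 0))⁻¹ * ψ (E' 0)) p' = p' := by
      rw [← map_inv, ← map_mul]; exact hup
    obtain ⟨q1, q2, _, _⟩ := (hP.map ψ).fix_of (mult_pos n a) (p3 _ ψ) (p4 _ ψ) h3 h2
    have h4 := p5 _ ψ p' q1 q2 h2
    have h5 : ψ c p' = p' := presented_fix ψ (by
      rintro (y | k)
      · exact h4 y
      · exact h1 k) c
    rw [hψ, MonoidHom.comp_apply, hp', up_Iic] at h5
    exact LowerSet.Iic_injective h5
  · intro X _ _ φ hφ
    refine (hP.ends.map φ).not_all (mult_pos n a) ?_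
    simpa only [map_mul, map_inv] using hφ

section infinite

/-- The values of `vᵢ` and `Fᵢ` in an abelian group in which `v₀` has the value `e`, and `M₁`,
`A₁` have the values `M`, `A`. -/
def sq (a : ℕ → ℕ) (e M A : ℤ) : ℕ → ℤ × ℤ
  | 0 => (e, e)
  | i + 1 =>
    ((sq a e M A i).1 + ((sq a e M A i).2 + a i * ((sq a e M A i).1 - A)) - M,
      (sq a e M A i).2 + a i * ((sq a e M A i).1 - A))

theorem sq_lin (a : ℕ → ℕ) (e c M A : ℤ) (i : ℕ) :
    sq a e (c * M) (c * A) i =
      (e * (sq a 1 0 0 i).1 + c * (sq a 0 M A i).1,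
        e * (sq a 1 0 0 i).2 + c * (sq a 0 M A i).2) := by
  induction i with
  | zero => simp [sq]
  | succ i ih =>
    have h1 : (sq a e (c * M) (c * A) i).1 = e * (sq a 1 0 0 i).1 + c * (sq a 0 M A i).1 := by
      rw [ih]
    have h2 : (sq a e (c * M) (c * A) i).2 = e * (sq a 1 0 0 i).2 + c * (sq a 0 M A i).2 := by
      rw [ih]
    refine Prod.ext ?_ ?_
    · show (sq a e (c * M) (c * A) i).1 + ((sq a e (c * M) (c * A) i).2 +
        a i * ((sq a e (c * M) (c * A) i).1 - c * A)) - c * M =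
        e * ((sq a 1 0 0 i).1 + ((sq a 1 0 0 i).2 + a i * ((sq a 1 0 0 i).1 - 0)) - 0) +
        c * ((sq a 0 M A i).1 + ((sq a 0 M A i).2 + a i * ((sq a 0 M A i).1 - A)) - M)
      rw [h1, h2]; ring
    · show (sq a e (c * M) (c * A) i).2 + a i * ((sq a e (c * M) (c * A) i).1 - c * A) =
        e * ((sq a 1 0 0 i).2 + a i * ((sq a 1 0 0 i).1 - 0)) +
        c * ((sq a 0 M A i).2 + a i * ((sq a 0 M A i).1 - A))
      rw [h1, h2]; ring

theorem sq_pos (a : ℕ → ℕ) (i : ℕ) : 0 < (sq a 1 0 0 i).1 ∧ 0 ≤ (sq a 1 0 0 i).2 := by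
  induction i with
  | zero => exact ⟨by norm_num [sq], by norm_num [sq]⟩
  | succ i ih =>
    obtain ⟨h1, h2⟩ := ih
    have h3 : 0 ≤ (a i : ℤ) * (sq a 1 0 0 i).1 := by positivity
    constructor
    · show 0 < (sq a 1 0 0 i).1 + ((sq a 1 0 0 i).2 + a i * ((sq a 1 0 0 i).1 - 0)) - 0
      linarith
    · show 0 ≤ (sq a 1 0 0 i).2 + a i * ((sq a 1 0 0 i).1 - 0)
      linarith

/-- the determinant of `D` -/
def dt (n : ℕ) (a : ℕ → ℕ) : ℤ := (sq a 1 0 0 (n + 1)).2 + (sq a 1 0 0 n).1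

theorem dt_pos (n : ℕ) (a : ℕ → ℕ) : 0 < dt n a := by
  have h1 := sq_pos a (n + 1)
  have h2 := sq_pos a n
  unfold dt
  linarith [h1.2, h2.1]

/-- the value of `v₀` -/
def ev (n : ℕ) (a : ℕ → ℕ) (m₁ m₂ m₃ m₄ : ℤ) : ℤ :=
  m₁ + m₂ + (m₃ + m₄) - ((sq a 0 m₁ m₃ (n + 1)).2 + (sq a 0 m₁ m₃ n).1)

/-- the values of `vᵢ` and `Fᵢ` -/
def vf (n : ℕ) (a : ℕ → ℕ) (m₁ m₂ m₃ m₄ : ℤ) (i : ℕ) : ℤ × ℤ :=
  sq a (ev n a m₁ m₂ m₃ m₄) (dt n a * m₁) (dt n a * m₃) i

theorem vf_last (n : ℕ) (a : ℕ → ℕ) (m₁ m₂ m₃ m₄ : ℤ) :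
    (vf n a m₁ m₂ m₃ m₄ (n + 1)).2 + (vf n a m₁ m₂ m₃ m₄ n).1 =
      dt n a * (m₁ + m₂) + dt n a * (m₃ + m₄) := by
  rw [vf, vf, sq_lin, sq_lin]
  show ev n a m₁ m₂ m₃ m₄ * (sq a 1 0 0 (n + 1)).2 + dt n a * (sq a 0 m₁ m₃ (n + 1)).2 +
    (ev n a m₁ m₂ m₃ m₄ * (sq a 1 0 0 n).1 + dt n a * (sq a 0 m₁ m₃ n).1) = _
  have h1 : (sq a 1 0 0 (n + 1)).2 = dt n a - (sq a 1 0 0 n).1 := by
    unfold dt; ring
  rw [h1]
  unfold ev
  ring

/-- The values of the generators. -/
def val (n : ℕ) (a : ℕ → ℕ) {P₂ P₃ P₄ : Per} (f₂ : P₂.K →* Multiplicative ℤ)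
    (f₃ : P₃.K →* Multiplicative ℤ) (f₄ : P₄.K →* Multiplicative ℤ) (m₁ m₂ m₃ m₄ : ℤ) :
    Gen n P₂.K P₃.K P₄.K → Multiplicative ℤ
  | A₀ | M₀ => 1
  | A₁ => Multiplicative.ofAdd (dt n a * m₃)
  | A₂ => Multiplicative.ofAdd (dt n a * (m₃ + m₄))
  | M₁ => Multiplicative.ofAdd (dt n a * m₁)
  | M₂ => Multiplicative.ofAdd (dt n a * (m₁ + m₂))
  | v _ i => Multiplicative.ofAdd (vf n a m₁ m₂ m₃ m₄ i).1
  | F _ i => Multiplicative.ofAdd (vf n a m₁ m₂ m₃ m₄ i).2
  | t₂ k => f₂ k ^ dt n a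
  | t₃ k => f₃ k ^ dt n a
  | t₄ k => f₄ k ^ dt n a

theorem val_rel (n : ℕ) (a : ℕ → ℕ) {P₂ P₃ P₄ : Per} (f₂ : P₂.K →* Multiplicative ℤ)
    (f₃ : P₃.K →* Multiplicative ℤ) (f₄ : P₄.K →* Multiplicative ℤ) (h₂ : f₂ P₂.l = 1)
    (h₃ : f₃ P₃.l = 1) (h₄ : f₄ P₄.l = 1) (m₁ m₂ m₃ m₄ : ℤ)
    (g₂ : f₂ P₂.m = Multiplicative.ofAdd m₂) (g₃ : f₃ P₃.m = Multiplicative.ofAdd m₃)
    (g₄ : f₄ P₄.m = Multiplicative.ofAdd m₄) (w : FreeGroup (Gen n P₂.K P₃.K P₄.K))
    (hw : Relator n a P₂ P₃ P₄ w) :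
    FreeGroup.lift (val n a f₂ f₃ f₄ m₁ m₂ m₃ m₄) w = 1 := by
  cases hw with
  | base_white => simp [val]
  | base_black => simp [val]
  | first c =>
    simp only [map_mul, map_inv, FreeGroup.lift_apply_of, val, inv_one, one_mul]
    rw [mul_inv_eq_one]
    simp [vf, sq]
  | spokes c i =>
    simp only [map_mul, map_inv, map_pow, FreeGroup.lift_apply_of, val]
    rw [mul_inv_eq_one, ← ofAdd_neg, ← ofAdd_neg, ← ofAdd_add, ← ofAdd_add, ← ofAdd_nsmul]
    congr 1
    simp only [Fin.val_castSucc, Fin.val_succ, vf, sq, nsmul_eq_mul]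
    ring
  | rim c i =>
    simp only [map_mul, map_inv, map_pow, FreeGroup.lift_apply_of, val]
    rw [mul_inv_eq_one, ← ofAdd_neg, ← ofAdd_neg, ← ofAdd_add, ← ofAdd_add]
    congr 1
    simp only [Fin.val_castSucc, Fin.val_succ, vf, sq]
    ring
  | last c =>
    simp only [map_mul, map_inv, map_pow, FreeGroup.lift_apply_of, val]
    rw [mul_inv_eq_one, ← ofAdd_neg, ← ofAdd_neg, ← ofAdd_add, ← ofAdd_add]
    congr 1
    have := vf_last n a m₁ m₂ m₃ m₄
    simp only [Fin.val_last]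
    linarith
  | mul₂ k k' =>
    simp only [map_mul, map_inv, FreeGroup.lift_apply_of, val]
    rw [mul_zpow, mul_inv_cancel]
  | mul₃ k k' =>
    simp only [map_mul, map_inv, FreeGroup.lift_apply_of, val]
    rw [mul_zpow, mul_inv_cancel]
  | mul₄ k k' =>
    simp only [map_mul, map_inv, FreeGroup.lift_apply_of, val]
    rw [mul_zpow, mul_inv_cancel]
  | l₂ => simp [val, h₂]
  | l₃ => simp [val, h₃]
  | l₄ => simp [val, h₄]
  | m₂ =>
    simp only [map_mul, map_inv, FreeGroup.lift_apply_of, val, g₂]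
    rw [mul_inv_eq_one, ← ofAdd_neg, ← ofAdd_add, ← ofAdd_zsmul]
    congr 1
    simp only [smul_eq_mul]
    ring
  | m₃ =>
    simp only [map_mul, map_inv, FreeGroup.lift_apply_of, val, g₃, inv_one, one_mul]
    rw [mul_inv_eq_one, ← ofAdd_zsmul]
    congr 1
  | m₄ =>
    simp only [map_mul, map_inv, FreeGroup.lift_apply_of, val, g₄]
    rw [mul_inv_eq_one, ← ofAdd_neg, ← ofAdd_add, ← ofAdd_zsmul]
    congr 1
    simp only [smul_eq_mul]
    ring
  | torus =>
    rw [map_mul, map_inv, mul_inv_eq_one, map_mul, map_mul]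
    exact mul_comm _ _

/-- Homomorphisms of the groups of the parts that kill `l` extend to the piece. -/
theorem piece_hom (n : ℕ) (a : ℕ → ℕ) {P₂ P₃ P₄ : Per} (f₂ : P₂.K →* Multiplicative ℤ)
    (f₃ : P₃.K →* Multiplicative ℤ) (f₄ : P₄.K →* Multiplicative ℤ) (h₂ : f₂ P₂.l = 1)
    (h₃ : f₃ P₃.l = 1) (h₄ : f₄ P₄.l = 1) (m₁ : ℤ) :
    ∃ g : Gen n P₂.K P₃.K P₄.K → Multiplicative ℤ,
      (∀ w, Relator n a P₂ P₃ P₄ w → FreeGroup.lift g w = 1) ∧
      FreeGroup.lift g lam = 1 ∧ FreeGroup.lift g mer = Multiplicative.ofAdd m₁ ^ dt n a ∧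
      (∀ k, g (t₂ k) = f₂ k ^ dt n a) ∧ (∀ k, g (t₃ k) = f₃ k ^ dt n a) ∧
      (∀ k, g (t₄ k) = f₄ k ^ dt n a) := by
  refine ⟨val n a f₂ f₃ f₄ m₁ (Multiplicative.toAdd (f₂ P₂.m)) (Multiplicative.toAdd (f₃ P₃.m))
    (Multiplicative.toAdd (f₄ P₄.m)), ?_, ?_, ?_, fun _ => rfl, fun _ => rfl, fun _ => rfl⟩
  · exact fun w hw => val_rel n a f₂ f₃ f₄ h₂ h₃ h₄ m₁ _ _ _ rfl rfl rfl w hw
  · simp [lam, val]
  · simp only [mer, map_mul, map_inv, FreeGroup.lift_apply_of, val, inv_one, one_mul]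
    rw [← ofAdd_zsmul]
    rfl

theorem pow_dt_ne {n : ℕ} {a : ℕ → ℕ} {y : Multiplicative ℤ} (hy : y ≠ 1) : y ^ dt n a ≠ 1 := by
  intro h
  have h1 : dt n a * Multiplicative.toAdd y = 0 := by
    have h2 := congrArg Multiplicative.toAdd h
    rwa [toAdd_zpow, toAdd_one, smul_eq_mul] at h2
  rcases mul_eq_zero.mp h1 with h2 | h2
  · exact (dt_pos n a).ne' h2
  · exact hy (toAdd_eq_zero.mp h2)

/-- The group has a nontrivial homomorphism to `ℤ` that kills `l`. -/
def Per.Inf (P : Per) : Prop := ∃ f : P.K →* Multiplicative ℤ, f P.l = 1 ∧ ∃ k, f k ≠ 1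

theorem piece_inf {n : ℕ} {a : ℕ → ℕ} {P₂ P₃ P₄ : Per} (f₂ : P₂.K →* Multiplicative ℤ)
    (f₃ : P₃.K →* Multiplicative ℤ) (f₄ : P₄.K →* Multiplicative ℤ) (h₂ : f₂ P₂.l = 1)
    (h₃ : f₃ P₃.l = 1) (h₄ : f₄ P₄.l = 1) (m₁ α β : ℤ)
    (hβ : β * m₁ = 0)
    (hne : (∃ k, f₂ k ≠ 1) ∨ (∃ k, f₃ k ≠ 1) ∨ (∃ k, f₄ k ≠ 1) ∨ m₁ ≠ 0) :
    ∃ f : PieceGroup n a P₂ P₃ P₄ →* Multiplicative ℤ, f (pm (lam ^ α * mer ^ β)) = 1 ∧
      ∃ k, f k ≠ 1 := by
  obtain ⟨g, g1, g2, g3, g4, g5, g6⟩ := piece_hom n a f₂ f₃ f₄ h₂ h₃ h₄ m₁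
  have hf : ∀ w, PresentedGroup.toGroup (rels := {w | Relator n a P₂ P₃ P₄ w}) g1 (pm w) =
      FreeGroup.lift g w := fun w => rfl
  refine ⟨PresentedGroup.toGroup g1, ?_, ?_⟩
  · rw [hf, map_mul, map_zpow, map_zpow, g2, g3, one_zpow, one_mul, ← ofAdd_zsmul,
      ← ofAdd_zsmul, ofAdd_eq_one]
    simp only [smul_eq_mul]
    rw [show β * (dt n a * m₁) = dt n a * (β * m₁) by ring, hβ, mul_zero]
  · rcases hne with ⟨k, hk⟩ | ⟨k, hk⟩ | ⟨k, hk⟩ | hm
    · refine ⟨pm (ι (t₂ k)), ?_⟩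
      rw [hf, FreeGroup.lift_apply_of, g4]; exact pow_dt_ne hk
    · refine ⟨pm (ι (t₃ k)), ?_⟩
      rw [hf, FreeGroup.lift_apply_of, g5]; exact pow_dt_ne hk
    · refine ⟨pm (ι (t₄ k)), ?_⟩
      rw [hf, FreeGroup.lift_apply_of, g6]; exact pow_dt_ne hk
    · refine ⟨pm mer, ?_⟩
      rw [hf, g3]
      refine pow_dt_ne ?_
      rwa [Ne, ofAdd_eq_one]

theorem part_inf (S : Part) (hS : ¬ S.Ok) : S.per.Inf := by
  induction S with
  | rational s r =>
    have h : s = 0 := by
      by_contra h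
      exact hS (Nat.pos_of_ne_zero h)
    subst h
    refine ⟨MonoidHom.id (Multiplicative ℤ), rfl, Multiplicative.ofAdd (1 : ℤ), ?_⟩
    show Multiplicative.ofAdd (1 : ℤ) ≠ 1
    rw [Ne, ofAdd_eq_one]
    norm_num
  | tangle T p q r s h => exact absurd trivial hS
  | piece n a T₂ T₃ T₄ α β γ δ ih₂ ih₃ ih₄ =>
    by_cases h₂ : T₂.Ok
    · by_cases h₃ : T₃.Ok
      · by_cases h₄ : T₄.Ok
        · have hβ : β = 0 := by
            by_contra hβ
            exact hS ⟨h₂, h₃, h₄, hβ⟩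
          exact piece_inf 1 1 1 rfl rfl rfl 1 α β (by rw [hβ, zero_mul])
            (Or.inr (Or.inr (Or.inr one_ne_zero)))
        · obtain ⟨f, h1, h2⟩ := ih₄ h₄
          exact piece_inf 1 1 f rfl rfl h1 0 α β (mul_zero _) (Or.inr (Or.inr (Or.inl h2)))
      · obtain ⟨f, h1, h2⟩ := ih₃ h₃
        exact piece_inf 1 f 1 rfl h1 rfl 0 α β (mul_zero _) (Or.inr (Or.inl h2))
    · obtain ⟨f, h1, h2⟩ := ih₂ h₂
      exact piece_inf f 1 1 h1 rfl rfl 0 α β (mul_zero _) (Or.inl h2)

theorem closed_inf {n : ℕ} {a : ℕ → ℕ} {P₁ P₂ P₃ P₄ : Per} (f₁ : P₁.K →* Multiplicative ℤ)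
    (f₂ : P₂.K →* Multiplicative ℤ) (f₃ : P₃.K →* Multiplicative ℤ)
    (f₄ : P₄.K →* Multiplicative ℤ) (h₁ : f₁ P₁.l = 1) (h₂ : f₂ P₂.l = 1) (h₃ : f₃ P₃.l = 1)
    (h₄ : f₄ P₄.l = 1)
    (hne : (∃ k, f₁ k ≠ 1) ∨ (∃ k, f₂ k ≠ 1) ∨ (∃ k, f₃ k ≠ 1) ∨ (∃ k, f₄ k ≠ 1)) :
    ∃ (f : ClosedGroup n a P₁ P₂ P₃ P₄ →* Multiplicative ℤ)
      (x : ClosedGroup n a P₁ P₂ P₃ P₄), f x ≠ 1 := by
  obtain ⟨g, g1, g2, g3, g4, g5, g6⟩ := piece_hom n a f₂ f₃ f₄ h₂ h₃ h₄
    (Multiplicative.toAdd (f₁ P₁.m))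
  set φ : Gen n P₂.K P₃.K P₄.K ⊕ P₁.K → Multiplicative ℤ :=
    Sum.elim g (fun k => f₁ k ^ dt n a) with hφ
  have lft : ∀ w, FreeGroup.lift φ (FreeGroup.map Sum.inl w) = FreeGroup.lift g w := by
    intro w
    have h1 : (FreeGroup.lift φ).comp (FreeGroup.map Sum.inl) = FreeGroup.lift g := by
      ext y; simp [hφ]
    exact DFunLike.congr_fun h1 w
  have hrel : ∀ w ∈ {w | ClosedRelator n a P₁ P₂ P₃ P₄ w}, FreeGroup.lift φ w = 1 := by
    rintro w (⟨w, hw⟩ | ⟨k, k'⟩ | _ | _)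
    · rw [lft, g1 w hw]
    · simp only [map_mul, map_inv, FreeGroup.lift_apply_of, hφ, Sum.elim_inr]
      rw [mul_zpow, mul_inv_cancel]
    · rw [map_mul, lft, g2, map_inv, FreeGroup.lift_apply_of]
      simp [hφ, h₁]
    · rw [map_mul, lft, g3, map_inv, FreeGroup.lift_apply_of]
      simp [hφ]
  refine ⟨PresentedGroup.toGroup hrel, ?_⟩
  rcases hne with ⟨k, hk⟩ | ⟨k, hk⟩ | ⟨k, hk⟩ | ⟨k, hk⟩
  · refine ⟨PresentedGroup.of (Sum.inr k), ?_⟩
    rw [PresentedGroup.toGroup.of]
    exact pow_dt_ne hk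
  · refine ⟨PresentedGroup.of (Sum.inl (t₂ k)), ?_⟩
    rw [PresentedGroup.toGroup.of]
    show g (t₂ k) ≠ 1
    rw [g4]; exact pow_dt_ne hk
  · refine ⟨PresentedGroup.of (Sum.inl (t₃ k)), ?_⟩
    rw [PresentedGroup.toGroup.of]
    show g (t₃ k) ≠ 1
    rw [g5]; exact pow_dt_ne hk
  · refine ⟨PresentedGroup.of (Sum.inl (t₄ k)), ?_⟩
    rw [PresentedGroup.toGroup.of]
    show g (t₄ k) ≠ 1
    rw [g6]; exact pow_dt_ne hk

end infinite

/-- **Trees of exteriors of tangles in symmetric unions of two-bridge links.**  If no gluing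
matches the rational longitudes then every homomorphism from the fundamental group of the closed
manifold to a left-orderable group is trivial; in particular the fundamental group is not
left-orderable.  If some gluing matches them then the group has an infinite cyclic quotient. -/
theorem result (n : ℕ) (a : ℕ → ℕ) (T₁ T₂ T₃ T₄ : Part) :
    (T₁.Ok ∧ T₂.Ok ∧ T₃.Ok ∧ T₄.Ok → (∀ (H : Type) [Group H], LeftOrderable H →
      ∀ (f : Grp n a T₁ T₂ T₃ T₄ →* H) (x : Grp n a T₁ T₂ T₃ T₄), f x = 1) ∧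
      ¬ LeftOrderable (Grp n a T₁ T₂ T₃ T₄)) ∧
    (¬ (T₁.Ok ∧ T₂.Ok ∧ T₃.Ok ∧ T₄.Ok) →
      ∃ (f : Grp n a T₁ T₂ T₃ T₄ →* Multiplicative ℤ) (x : Grp n a T₁ T₂ T₃ T₄), f x ≠ 1) := by
  constructor
  · rintro ⟨h₁, h₂, h₃, h₄⟩
    have key : ∀ (H : Type) [Group H], LeftOrderable H →
        ∀ (f : Grp n a T₁ T₂ T₃ T₄ →* H) (x : Grp n a T₁ T₂ T₃ T₄), f x = 1 :=
      fun H _ hH f x => closed_triv n a T₁.per T₂.per T₃.per T₄.per (part_ctl T₁ h₁)
        (part_ctl T₂ h₂) (part_ctl T₃ h₃) (part_ctl T₄ h₄) (per_comm T₄) H hH f x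
    refine ⟨key, fun hG => ?_⟩
    obtain ⟨x, y, hxy⟩ := hG.1
    have h1 := key _ hG (MonoidHom.id _) x
    have h2 := key _ hG (MonoidHom.id _) y
    simp only [MonoidHom.id_apply] at h1 h2
    exact hxy (by rw [h1, h2])
  · intro h
    by_cases h₁ : T₁.Ok
    · by_cases h₂ : T₂.Ok
      · by_cases h₃ : T₃.Ok
        · have h₄ : ¬ T₄.Ok := fun h₄ => h ⟨h₁, h₂, h₃, h₄⟩
          obtain ⟨f, e1, e2⟩ := part_inf T₄ h₄
          exact closed_inf 1 1 1 f rfl rfl rfl e1 (Or.inr (Or.inr (Or.inr e2)))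
        · obtain ⟨f, e1, e2⟩ := part_inf T₃ h₃
          exact closed_inf 1 1 f 1 rfl rfl e1 rfl (Or.inr (Or.inr (Or.inl e2)))
      · obtain ⟨f, e1, e2⟩ := part_inf T₂ h₂
        exact closed_inf 1 f 1 1 rfl e1 rfl rfl (Or.inr (Or.inl e2))
    · obtain ⟨f, e1, e2⟩ := part_inf T₁ h₁
      exact closed_inf f 1 1 1 e1 rfl rfl rfl (Or.inl e2)

end Pool.Agent.Results.MP_3d425c_gt.GluedSymmetricUnions
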